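import Pool.Agent.Lib.MP_79499b_co.Q38GoodT

/-!
# The goodness of squarefree numbers for an odd modulus, not necessarily prime
-/

namespace Pool.Agent.Lib.MP_79499b_co.PC

open Finset Filter Topology Q38
open scoped Classical NumberTheorySymbols

lemma good_of_odd_prime {l p c : ℕ} (hl3 : 3 ≤ l) (hp : p.Prime) (hp2 : p ≠ 2)
    (hpl : ¬ p ∣ l) (hc : 0 < c) (hpc : ¬ p ∣ c) : Good l (p * c) := by
  have : Fact p.Prime := ⟨hp⟩
  obtain ⟨b, hb⟩ : ∃ b : ZMod p, ¬ IsSquare b := FiniteField.exists_nonsquare (by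
    rw [ZMod.ringChar_zmod_n]; exact hp2)
  have hcop : p.Coprime (4 * c * l) := by
    rw [Nat.Prime.coprime_iff_not_dvd hp]
    intro h
    rcases (Nat.Prime.dvd_mul hp).mp h with h | h
    · rcases (Nat.Prime.dvd_mul hp).mp h with h | h
      · have h1 : p ∣ 2 ^ 2 := by simpa using h
        exact hp2 ((Nat.prime_dvd_prime_iff_eq hp Nat.prime_two).mp (hp.dvd_of_dvd_pow h1))
      · exact hpc h
    · exact hpl h
  obtain ⟨n₀, hn1, hn2⟩ := Nat.chineseRemainder hcop b.val 1
  have h4cl : 1 < 4 * c * l := by nlinarith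
  have h1 : n₀ % (4 * c * l) = 1 := by
    have : n₀ % (4 * c * l) = 1 % (4 * c * l) := hn2
    rw [this, Nat.mod_eq_of_lt h4cl]
  have hb0 : b ≠ 0 := by rintro rfl; exact hb ⟨0, by simp⟩
  have hnb : ((n₀ : ℕ) : ZMod p) = b := by
    have h2 : ((n₀ : ℕ) : ZMod p) = ((b.val : ℕ) : ZMod p) :=
      (ZMod.natCast_eq_natCast_iff _ _ _).mpr hn1
    rw [h2, ZMod.natCast_zmod_val]
  have hleg : J(n₀ | p) = -1 := by
    rw [← jacobiSym.legendreSym.to_jacobiSym, legendreSym.eq_neg_one_iff]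
    simpa [hnb] using hb
  have h4 : n₀ % 4 = 1 := by
    have h3 : n₀ % (4 * c * l) % 4 = n₀ % 4 := Nat.mod_mod_of_dvd n₀ ⟨c * l, by ring⟩
    rw [h1] at h3
    omega
  have hodd : Odd p := hp.odd_of_ne_two hp2
  refine ⟨n₀, ?_, ?_, ?_⟩
  · have h3 : n₀ % (4 * c * l) % l = n₀ % l := Nat.mod_mod_of_dvd n₀ ⟨4 * c, by ring⟩
    rw [h1, Nat.mod_eq_of_lt (by omega)] at h3
    exact h3.symm
  · have h5 : n₀.Coprime (4 * c * l) := by
      have : n₀.gcd (4 * c * l) = (n₀ % (4 * c * l)).gcd (4 * c * l) := by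
        rw [← Nat.gcd_rec, Nat.gcd_comm]
      rw [Nat.Coprime, this, h1, Nat.gcd_one_left]
    have h6 : n₀.Coprime p := by
      rw [Nat.coprime_comm, Nat.Prime.coprime_iff_not_dvd hp]
      intro h
      apply hb0
      rw [← hnb]
      exact (ZMod.natCast_eq_zero_iff _ _).mpr h
    have h7 : 4 * (p * c) * l = p * (4 * c * l) := by ring
    rw [h7]
    exact Nat.Coprime.mul_right h6 h5
  · push_cast
    rw [jacobiSym.mul_left]
    have h8 : J((p : ℤ) | n₀) = -1 := by
      rw [jacobiSym.quadratic_reciprocity_one_mod_four' hodd h4]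
      exact hleg
    have h9 : J((c : ℤ) | n₀) = 1 := by
      apply jacobi_one_mod hc
      have h3 : n₀ % (4 * c * l) % (4 * c) = n₀ % (4 * c) := Nat.mod_mod_of_dvd n₀ ⟨l, rfl⟩
      rw [h1, Nat.mod_eq_of_lt (by omega)] at h3
      exact h3.symm
    rw [h8, h9]; norm_num

lemma good_of_two {l c : ℕ} (hlodd : Odd l) (hl3 : 3 ≤ l) (hc : Odd c) : Good l (2 * c) := by
  have hcop : (8 : ℕ).Coprime (c * l) := by
    have : Odd (c * l) := hc.mul hlodd
    rw [show (8 : ℕ) = 2 ^ 3 by norm_num]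
    exact Nat.Coprime.pow_left 3 (Nat.coprime_two_left.mpr this)
  obtain ⟨n₀, hn1, hn2⟩ := Nat.chineseRemainder hcop 5 1
  have hc0 : 0 < c := hc.pos
  have h1 : n₀ % (c * l) = 1 := by
    have : n₀ % (c * l) = 1 % (c * l) := hn2
    rw [this, Nat.mod_eq_of_lt (by nlinarith)]
  have h8 : n₀ % 8 = 5 := hn1
  have hodd : Odd n₀ := by rw [Nat.odd_iff]; omega
  refine ⟨n₀, ?_, ?_, ?_⟩
  · have h3 : n₀ % (c * l) % l = n₀ % l := Nat.mod_mod_of_dvd n₀ ⟨c, by ring⟩
    rw [h1, Nat.mod_eq_of_lt (by omega)] at h3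
    exact h3.symm
  · have h5 : n₀.Coprime (c * l) := by
      have : n₀.gcd (c * l) = (n₀ % (c * l)).gcd (c * l) := by
        rw [← Nat.gcd_rec, Nat.gcd_comm]
      rw [Nat.Coprime, this, h1, Nat.gcd_one_left]
    have h6 : n₀.Coprime 8 := by
      rw [show (8 : ℕ) = 2 ^ 3 by norm_num]
      exact Nat.Coprime.pow_right 3 (Nat.coprime_two_right.mpr hodd)
    have h7 : 4 * (2 * c) * l = 8 * (c * l) := by ring
    rw [h7]
    exact Nat.Coprime.mul_right h6 h5
  · push_cast
    rw [jacobiSym.mul_left]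
    have h9 : J((2 : ℤ) | n₀) = -1 := by
      rw [jacobiSym.at_two hodd]
      have : ((n₀ : ℕ) : ZMod 8) = 5 := by
        have h10 : ((n₀ : ℕ) : ZMod 8) = ((5 : ℕ) : ZMod 8) :=
          (ZMod.natCast_eq_natCast_iff _ _ _).mpr hn1
        rw [h10]; rfl
      rw [this]
      decide
    have h10 : J((c : ℤ) | n₀) = 1 := by
      apply jacobi_one_mod hc0
      have h11 : n₀ ≡ 1 [MOD 4 * c] := by
        have h12 : (4 : ℕ).Coprime c := by
          rw [show (4 : ℕ) = 2 ^ 2 by norm_num]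
          exact Nat.Coprime.pow_left 2 (Nat.coprime_two_left.mpr hc)
        rw [← Nat.modEq_and_modEq_iff_modEq_mul h12]
        constructor
        · show n₀ % 4 = 1 % 4; omega
        · exact hn2.of_dvd (Dvd.intro _ rfl)
      have h13 : n₀ % (4 * c) = 1 % (4 * c) := h11
      rw [h13, Nat.mod_eq_of_lt (by omega)]
    rw [h9, h10]; norm_num

/-- all squarefree `a ≠ 1` coprime to the odd modulus are good -/
lemma good_of_coprime {l a : ℕ} (hl : Odd l) (hl3 : 3 ≤ l) (ha : Squarefree a) (ha1 : a ≠ 1)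
    (hal : a.Coprime l) : Good l a := by
  have ha0 : a ≠ 0 := ha.ne_zero
  by_cases h2 : 2 ∣ a
  · obtain ⟨c, rfl⟩ := h2
    apply good_of_two hl hl3
    rw [← Nat.coprime_two_left]
    exact Nat.coprime_of_squarefree_mul ha
  · obtain ⟨p, hp, c, rfl⟩ := Nat.exists_prime_and_dvd ha1
    have hc0 : 0 < c := Nat.pos_of_ne_zero (by rintro rfl; simp at ha0)
    refine good_of_odd_prime hl3 hp ?_ ?_ hc0 ?_
    · rintro rfl
      exact h2 (Dvd.intro _ rfl)
    · rw [← Nat.Prime.coprime_iff_not_dvd hp]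
      exact Nat.Coprime.coprime_mul_right hal
    · rw [← Nat.Prime.coprime_iff_not_dvd hp]
      exact Nat.coprime_of_squarefree_mul ha

theorem good_T {l : ℕ} (hl : Odd l) (hl3 : 3 ≤ l) {δ : ℝ} (hδ : 0 < δ) :
    ∃ x₀ : ℕ, ∀ x : ℕ, x₀ ≤ x → ∀ Y : ℕ, 3 ≤ Y → Y ≤ x →
      ∃ B : Finset ℕ, (∀ b ∈ B, 0 < b) ∧ ∑ b ∈ B, 1 / (b : ℝ) ≤ 1 / (Real.log x) ^ 2 ∧
        ∀ b : ℕ, Odd b → Squarefree b → b ≤ x → b ∉ B → ∀ a : ℕ, (a = b ∨ a = 2 * b) →
          a ≠ 1 → a.Coprime l → T l Y a ≤ δ * Real.log (Real.log x) := by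
  obtain ⟨C1, hC10, hC1⟩ := T_le_of_good
  obtain ⟨C2, hC20, hC2⟩ := msum_one_le
  obtain ⟨C3, hC3⟩ := mertens_all
  -- conditions on x
  have hev1 : ∀ᶠ x : ℕ in atTop, Real.log (12 * Real.log (Real.log x) + (Real.log (32 * l) + 4)) + C1 ≤
      δ * Real.log (Real.log x) :=
    tendsto_loglog.eventually (eventually_log_le 12 _ C1 δ (by norm_num) hδ)
  have hev2 : ∀ᶠ x : ℕ in atTop, Real.log (6 * Real.log (Real.log x) + Real.log 2) +
      (C2 + 9 + (Real.log 128 + C2 + C3)) ≤ δ * Real.log (Real.log x) :=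
    tendsto_loglog.eventually (eventually_log_le 6 _ _ δ (by norm_num) hδ)
  have hev3 : ∀ᶠ x : ℕ in atTop, Real.log (1 * Real.log x + 0) + C2 ≤ 1 * Real.log x :=
    tendsto_log_nat.eventually (eventually_log_le 1 0 C2 1 one_pos one_pos)
  obtain ⟨x₀, hx₀⟩ := eventually_atTop.mp (hev1.and (hev2.and (hev3.and
    (tendsto_log_nat.eventually_ge_atTop 400))))
  refine ⟨max x₀ 3, fun x hx Y hY3 hYx => ?_⟩
  obtain ⟨h1, h2, h3, h4⟩ := hx₀ x (le_trans (le_max_left _ _) hx)
  have hx3 : 3 ≤ x := le_trans (le_max_right _ _) hx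
  set Lx := Real.log x with hLx
  set Z : ℕ := ⌈Lx ^ 6⌉₊ with hZ
  have hLx1 : 1 ≤ Lx := by linarith
  have hLx0 : 0 < Lx := by linarith
  have hZlow : Lx ^ 6 ≤ Z := Nat.le_ceil _
  have hZup : (Z : ℝ) ≤ 2 * Lx ^ 6 := by
    have : (Z : ℝ) < Lx ^ 6 + 1 := Nat.ceil_lt_add_one (by positivity)
    have h5 : 1 ≤ Lx ^ 6 := one_le_pow₀ hLx1
    linarith
  have hZ400 : (400 : ℝ) ≤ Z := by
    have : Lx ≤ Lx ^ 6 := le_self_pow₀ hLx1 (by norm_num)
    linarith
  have hZ400' : 400 ≤ Z := by exact_mod_cast hZ400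
  have hZ1 : 1 ≤ Z := by omega
  refine ⟨badSet l Y Z x, fun b hb => (mem_badSet.mp hb).2.1.1.pos, ?_, ?_⟩
  · -- weight
    refine (bad_weight hl3 hZ1).trans ?_
    have hY1 : 1 ≤ Y := by omega
    have hlogY : Real.log Y ≤ Lx := Real.log_le_log (by positivity) (by exact_mod_cast hYx)
    have hlogY1 : 1 < Real.log Y := one_lt_log hY3
    have hm : msum 1 0 Y ≤ Lx := by
      have h5 := hC2 Y hY3
      have h6 : Real.log (Real.log Y) ≤ Real.log Lx := Real.log_le_log (by linarith) hlogY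
      have h7 : Real.log (1 * Lx + 0) = Real.log Lx := by ring_nf
      rw [h7, one_mul] at h3
      linarith
    have hm0 : 0 ≤ msum 1 0 Y := Finset.sum_nonneg fun w _ => by positivity
    have hn1 : (Nat.log 2 x : ℝ) + 1 ≤ 3 * Lx := by
      have := natlog_le x (by omega)
      linarith
    have hn2 : (Nat.log 2 Y : ℝ) + 1 ≤ 3 * Lx := by
      have := natlog_le Y hY1
      linarith
    have hs : Real.sqrt (6 * (msum 1 0 Y * ((Nat.log 2 Y : ℝ) + 1))) ≤ 5 * Lx := by
      apply Real.sqrt_le_iff.mpr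
      refine ⟨by positivity, ?_⟩
      have h5 : msum 1 0 Y * ((Nat.log 2 Y : ℝ) + 1) ≤ Lx * (3 * Lx) :=
        mul_le_mul hm hn2 (by positivity) hLx0.le
      nlinarith
    calc ((Nat.log 2 x : ℝ) + 1) *
          ((12 + 8 * Real.sqrt (6 * (msum 1 0 Y * ((Nat.log 2 Y : ℝ) + 1)))) / Z)
        ≤ (3 * Lx) * ((12 + 8 * (5 * Lx)) / Lx ^ 6) := by
          gcongr
      _ ≤ (3 * Lx) * ((52 * Lx) / Lx ^ 6) := by
          gcongr
          linarith
      _ = 156 / Lx ^ 4 := by field_simp; norm_num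
      _ ≤ 1 / Lx ^ 2 := by
          rw [div_le_div_iff₀ (by positivity) (by positivity)]
          have : Lx ^ 4 = Lx ^ 2 * Lx ^ 2 := by ring
          rw [this]
          have h5 : 156 ≤ Lx ^ 2 := by nlinarith
          have h6 : 0 < Lx ^ 2 := by positivity
          nlinarith
  · intro b hbodd hbsq hbx hbB a ha ha1 hal
    by_cases hbZ : Z ^ 2 ≤ b
    · -- large, not bad
      have hnb : ¬ IsBad l Y Z b := fun h => hbB (mem_badSet.mpr ⟨hbx, ⟨hbodd, hbsq⟩, hbZ, h⟩)
      set j := Nat.log 2 b with hj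
      have hbj : b < 2 ^ (j + 1) := Nat.lt_pow_succ_log_self (by norm_num) b
      have hj16 : 16 ≤ j := by
        by_contra hcon
        push Not at hcon
        have h5 : 2 ^ (j + 1) ≤ 2 ^ 16 := Nat.pow_le_pow_right (by norm_num) (by omega)
        have h6 : 400 ^ 2 ≤ Z ^ 2 := Nat.pow_le_pow_left hZ400' 2
        omega
      have hZV : Z ≤ 2 ^ (8 * j) := by
        calc Z ≤ Z ^ 2 := Nat.le_self_pow (by norm_num) Z
          _ ≤ b := hbZ
          _ ≤ 2 ^ (j + 1) := hbj.le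
          _ ≤ 2 ^ (8 * j) := Nat.pow_le_pow_right (by norm_num) (by omega)
      have h5 := T_le_of_not_bad hl3 hbodd hZV hnb
      have h6 : T l Y a ≤ msum 1 0 Z + 9 + (msum 1 0 (2 ^ (8 * j)) - msum 1 0 (2 ^ (j / 8))) := by
        rcases ha with rfl | rfl
        · exact h5.1
        · exact h5.2
      have hU3 : 3 ≤ 2 ^ (j / 8) := by
        calc 3 ≤ 2 ^ 2 := by norm_num
          _ ≤ 2 ^ (j / 8) := Nat.pow_le_pow_right (by norm_num) (by omega)
      have hV3 : 3 ≤ 2 ^ (8 * j) := by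
        calc 3 ≤ 2 ^ 2 := by norm_num
          _ ≤ 2 ^ (8 * j) := Nat.pow_le_pow_right (by norm_num) (by omega)
      have h7 := hC2 _ hV3
      have h8 := hC3 _ hU3
      have h9 := hC2 Z (by omega)
      have hlog2 : 0 < Real.log 2 := Real.log_pos (by norm_num)
      have h10 : Real.log (Real.log ((2 ^ (8 * j) : ℕ) : ℝ)) ≤
          Real.log (Real.log ((2 ^ (j / 8) : ℕ) : ℝ)) + Real.log 128 := by
        have hj8 : (0 : ℝ) < ((j / 8 : ℕ) : ℝ) := by
          have : 0 < j / 8 := by omega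
          exact_mod_cast this
        have hj0 : (0 : ℝ) < ((8 * j : ℕ) : ℝ) := by
          have : 0 < 8 * j := by omega
          exact_mod_cast this
        rw [Nat.cast_pow, Nat.cast_pow, Nat.cast_ofNat, Real.log_pow, Real.log_pow,
          ← Real.log_mul (mul_pos hj8 hlog2).ne' (by norm_num)]
        apply Real.log_le_log (mul_pos hj0 hlog2)
        have h11 : 8 * j ≤ (j / 8) * 128 := by omega
        have h12 : ((8 * j : ℕ) : ℝ) ≤ ((j / 8 : ℕ) : ℝ) * 128 := by exact_mod_cast h11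
        calc ((8 * j : ℕ) : ℝ) * Real.log 2 ≤ (((j / 8 : ℕ) : ℝ) * 128) * Real.log 2 :=
              mul_le_mul_of_nonneg_right h12 hlog2.le
          _ = _ := by ring
      have h11 : Real.log (Real.log Z) ≤ Real.log (6 * Real.log Lx + Real.log 2) := by
        apply Real.log_le_log
        · apply Real.log_pos; linarith
        · have h12 : Real.log Z ≤ Real.log (2 * Lx ^ 6) := Real.log_le_log (by linarith) hZup
          rw [Real.log_mul (by norm_num) (by positivity), Real.log_pow] at h12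
          push_cast at h12
          linarith
      linarith
    · -- small
      push Not at hbZ
      have hasq : Squarefree a := by
        rcases ha with rfl | rfl
        · exact hbsq
        · rw [Nat.squarefree_mul (Nat.coprime_two_left.mpr hbodd)]
          exact ⟨Nat.prime_two.prime.squarefree, hbsq⟩
      have ha0 : 0 < a := Nat.pos_of_ne_zero hasq.ne_zero
      have hgood := good_of_coprime hl hl3 hasq ha1 hal
      have h5 := hC1 l a Y hl3 ha0 hgood hY3
      refine h5.trans (le_trans ?_ h1)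
      refine add_le_add (Real.log_le_log ?_ ?_) le_rfl
      · have h6 : 1 ≤ 4 * a * l := by
          have : 0 < 4 * a * l := by positivity
          exact this
        have : 0 ≤ Real.log ((4 * a * l : ℕ) : ℝ) := Real.log_nonneg (by exact_mod_cast h6)
        linarith
      · have h6 : (a : ℝ) ≤ 2 * (Z : ℝ) ^ 2 := by
          have h7 : a ≤ 2 * Z ^ 2 := by
            rcases ha with rfl | rfl
            · omega
            · omega
          exact_mod_cast h7
        have h7 : ((4 * a * l : ℕ) : ℝ) ≤ (32 * l) * (Lx ^ 6) ^ 2 := by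
          push_cast
          have h8 : (Z : ℝ) ^ 2 ≤ (2 * Lx ^ 6) ^ 2 := pow_le_pow_left₀ (by positivity) hZup 2
          have h9 : (0 : ℝ) ≤ l := Nat.cast_nonneg l
          have h10 : (a : ℝ) ≤ 8 * (Lx ^ 6) ^ 2 := by nlinarith
          nlinarith
        have hl0 : (0 : ℝ) < l := by exact_mod_cast (show 0 < l by omega)
        have h8 := Real.log_le_log (by
          have : 0 < 4 * a * l := by positivity
          exact_mod_cast this) h7
        rw [Real.log_mul (by positivity) (by positivity), ← pow_mul, Real.log_pow] at h8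
        push_cast at h8 ⊢
        linarith

end Pool.Agent.Lib.MP_79499b_co.PC
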