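import Pool.Agent.Lib.MP_79499b_co.Q38Master
import Pool.Agent.Lib.MP_79499b_co.PC.Good

/-!
# The sieve for a general modulus and an arbitrary predicate on the sieving primes
-/

namespace Pool.Agent.Lib.MP_79499b_co.PC

open Finset Filter Topology Q38
open scoped Classical NumberTheorySymbols

/-- `l - 1` roots modulo the primes `≡ 1 (mod l)` -/
lemma le_nroots {l u : ℕ} (hl : 2 ≤ l) (hu : u.Prime) (h : u % l = 1) : l - 1 ≤ nroots l u := by
  have : Fact u.Prime := ⟨hu⟩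
  have hdvd : l ∣ u - 1 := (Nat.modEq_iff_dvd' hu.one_lt.le).mp (by
    rw [Nat.ModEq, h, Nat.mod_eq_of_lt (by omega)])
  have hcard : Fintype.card (ZMod u)ˣ = u - 1 := ZMod.card_units u
  obtain ⟨g, hg⟩ := IsCyclic.exists_generator (α := (ZMod u)ˣ)
  have hgo : orderOf g = u - 1 := by
    rw [orderOf_eq_card_of_forall_mem_zpowers hg, Nat.card_eq_fintype_card, hcard]
  have hu1 : u - 1 ≠ 0 := by
    have := hu.two_le
    omega
  obtain ⟨ζ, hζ⟩ : ∃ ζ : (ZMod u)ˣ, orderOf ζ = l := by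
    obtain ⟨t, ht⟩ := hdvd
    refine ⟨g ^ t, ?_⟩
    have ht0 : t ≠ 0 := by
      rintro rfl
      simp at ht
      omega
    rw [orderOf_pow' g ht0, hgo, ht, Nat.gcd_mul_left_left, Nat.mul_div_cancel _ (by omega)]
  unfold nroots
  have h1 : (Ico 1 l).card ≤ ((range u).filter (fun n => u ∣ Phi l n)).card := by
    refine Finset.card_le_card_of_injOn (fun i => ((ζ ^ i : (ZMod u)ˣ) : ZMod u).val) ?_ ?_
    · intro i hi
      rw [Finset.mem_coe, Finset.mem_Ico] at hi
      rw [Finset.mem_coe, Finset.mem_filter, Finset.mem_range]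
      refine ⟨ZMod.val_lt _, ?_⟩
      rw [← ZMod.natCast_eq_zero_iff]
      unfold Phi
      push_cast
      rw [ZMod.natCast_zmod_val]
      have h2 : ((ζ ^ i : (ZMod u)ˣ) : ZMod u) ≠ 1 := by
        intro h3
        have h4 : ζ ^ i = 1 := Units.ext h3
        have h5 := orderOf_dvd_of_pow_eq_one h4
        rw [hζ] at h5
        exact absurd (Nat.le_of_dvd (by omega) h5) (by omega)
      have h3 : ((ζ ^ i : (ZMod u)ˣ) : ZMod u) ^ l = 1 := by
        rw [← Units.val_pow_eq_pow_val, ← pow_mul, mul_comm, pow_mul, ← hζ, pow_orderOf_eq_one,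
          one_pow, Units.val_one]
      have h4 := geom_sum_mul ((ζ ^ i : (ZMod u)ˣ) : ZMod u) l
      rw [h3, sub_self] at h4
      rcases mul_eq_zero.mp h4 with h | h
      · exact h
      · exact absurd (sub_eq_zero.mp h) h2
    · intro i hi j hj hij
      rw [Finset.mem_coe, Finset.mem_Ico] at hi hj
      have h2 : ζ ^ i = ζ ^ j := Units.ext (ZMod.val_injective u hij)
      rw [pow_inj_mod, hζ, Nat.mod_eq_of_lt hi.2, Nat.mod_eq_of_lt hj.2] at h2
      exact h2
  rw [Nat.card_Ico] at h1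
  exact h1

/-- the density of the classes removed by the primes with `F u` -/
noncomputable def rsum (l : ℕ) (F : ℕ → Prop) (Y : ℕ) (S : Finset ℕ) : ℝ :=
  ∑ u ∈ UU Y S, (if F u then (nroots l u : ℝ) * ((u : ℝ))⁻¹ else 0)

theorem GG_lowerF {l Y : ℕ} (hl : 1 ≤ l) (E F : ℕ → Prop) {S : Finset ℕ}
    (hS : ∀ p ∈ S, p.Prime) :
    esum E Y + rsum l F Y S - (S.card + 1) ≤ GG l E F Y S := by
  have h1 : ∀ u ∈ UU Y S, (if E u then ((u : ℝ))⁻¹ else 0) - 1 / (u : ℝ) ^ 2 +
      (if F u then (nroots l u : ℝ) * ((u : ℝ))⁻¹ else 0) ≤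
      (((range (u ^ 2)).filter (Rem l E F u)).card : ℝ) / ((u ^ 2 : ℕ) : ℝ) := by
    intro u hu
    have hup : u.Prime := (Finset.mem_filter.mp hu).2.1
    have hu0 : (0 : ℝ) < u := by exact_mod_cast hup.pos
    rw [card_Rem hl hup]
    have h3 : (if E u then (u : ℝ) - 1 else 0) ≤ ((if E u then u - 1 else 0 : ℕ) : ℝ) := by
      split_ifs with h
      · rw [Nat.cast_sub hup.one_lt.le]; push_cast; exact le_rfl
      · simp
    rw [le_div_iff₀ (by push_cast; positivity)]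
    push_cast at h3 ⊢
    refine le_trans ?_ (add_le_add h3 le_rfl)
    split_ifs
    · field_simp
      nlinarith
    · field_simp
      nlinarith
    · field_simp
      nlinarith
    · field_simp
      nlinarith
  have h2 : GG l E F Y S ≥ ∑ u ∈ UU Y S, ((if E u then ((u : ℝ))⁻¹ else 0) - 1 / (u : ℝ) ^ 2 +
      (if F u then (nroots l u : ℝ) * ((u : ℝ))⁻¹ else 0)) := Finset.sum_le_sum h1
  rw [Finset.sum_add_distrib, Finset.sum_sub_distrib] at h2
  have h3 : ∑ u ∈ UU Y S, 1 / (u : ℝ) ^ 2 ≤ 1 := by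
    have := sum_inv_sq_le (UU Y S) (Z := 2) (by norm_num) (fun a ha =>
      (Finset.mem_filter.mp ha).2.1.two_le)
    simpa using this
  have h4 : esum E Y - S.card ≤ ∑ u ∈ UU Y S, (if E u then ((u : ℝ))⁻¹ else 0) := by
    rw [← Finset.sum_filter]
    have h5 : (range Y).filter (fun u => u.Prime ∧ E u) ⊆ (UU Y S).filter E ∪ S := by
      intro u hu
      rw [Finset.mem_filter] at hu
      rw [Finset.mem_union]
      by_cases huS : u ∈ S
      · right; exact huS
      · left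
        rw [Finset.mem_filter, UU, Finset.mem_filter]
        exact ⟨⟨hu.1, hu.2.1, huS⟩, hu.2.2⟩
    have h6 : esum E Y ≤ ∑ u ∈ (UU Y S).filter E, ((u : ℝ))⁻¹ + ∑ u ∈ S, ((u : ℝ))⁻¹ :=
      (Finset.sum_le_sum_of_subset_of_nonneg h5 fun _ _ _ => by positivity).trans
        (sum_union_le' _ _ _ fun _ => by positivity)
    have h7 := sum_inv_primes_le hS
    linarith
  unfold rsum
  linarith

/-- the removed density for the nonresidue condition -/
theorem rsum_NR_lower {l Y : ℕ} (hl3 : 3 ≤ l) {S R : Finset ℕ}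
    (hR : R ⊆ S) (hS : ∀ p ∈ S, p.Prime) {η : ℝ} (hη : 0 ≤ η)
    (hT : ∀ V ⊆ R, V.Nonempty → T l Y (∏ p ∈ V, p) ≤ η) :
    (l - 1) * (1 - 1 / 2 ^ R.card) * msum l 1 Y - (l * η + 2 * l * S.card) ≤
      rsum l (NR l R) Y S := by
  have hl1 : (1 : ℝ) ≤ l := by exact_mod_cast (by omega : 1 ≤ l)
  have hRS : (R.card : ℝ) ≤ S.card := by exact_mod_cast Finset.card_le_card hR
  have h5 : (1 - 1 / 2 ^ R.card) * msum l 1 Y - η - 2 * S.card ≤
      ∑ u ∈ UU Y S, (if NR l R u then ((u : ℝ))⁻¹ else 0) := by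
    rw [← Finset.sum_filter]
    have h6 := residue_sum (Y := Y) (fun p hp => hS p (hR hp)) hη hT
    have h7 : (range Y).filter (fun u => u.Prime ∧ u % l = 1) ⊆
        ((UU Y S).filter (NR l R) ∪ S) ∪
          (range Y).filter (fun u => (u.Prime ∧ u % l = 1) ∧ ¬ NR l R u) := by
      intro u hu
      rw [Finset.mem_filter] at hu
      rw [Finset.mem_union, Finset.mem_union]
      by_cases hNR : NR l R u
      · left
        by_cases huS : u ∈ S
        · right; exact huS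
        · left
          rw [Finset.mem_filter, UU, Finset.mem_filter]
          exact ⟨⟨hu.1, hu.2.1, huS⟩, hNR⟩
      · right
        rw [Finset.mem_filter]
        exact ⟨hu.1, hu.2, hNR⟩
    have h8 : msum l 1 Y ≤ (∑ u ∈ (UU Y S).filter (NR l R), ((u : ℝ))⁻¹ + ∑ u ∈ S, ((u : ℝ))⁻¹) +
        ∑ u ∈ (range Y).filter (fun u => (u.Prime ∧ u % l = 1) ∧ ¬ NR l R u), ((u : ℝ))⁻¹ := by
      unfold msum
      refine (Finset.sum_le_sum_of_subset_of_nonneg h7 fun _ _ _ => by positivity).trans ?_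
      refine (sum_union_le' _ _ _ fun _ => by positivity).trans ?_
      gcongr
      exact sum_union_le' _ _ _ fun _ => by positivity
    have h9 := sum_inv_primes_le hS
    linarith
  have h6 : (l - 1 : ℝ) * ((1 - 1 / 2 ^ R.card) * msum l 1 Y - η - 2 * S.card) ≤
      (l - 1) * ∑ u ∈ UU Y S, (if NR l R u then ((u : ℝ))⁻¹ else 0) :=
    mul_le_mul_of_nonneg_left h5 (by linarith)
  have hS0 : (0 : ℝ) ≤ S.card := Nat.cast_nonneg _
  have h7 : (l - 1 : ℝ) * ((1 - 1 / 2 ^ R.card) * msum l 1 Y - η - 2 * S.card) =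
      (l - 1) * (1 - 1 / 2 ^ R.card) * msum l 1 Y - ((l - 1) * η + (l - 1) * (2 * S.card)) := by ring
  rw [h7] at h6
  have h8 : (l - 1 : ℝ) * η ≤ l * η := mul_le_mul_of_nonneg_right (by linarith) hη
  have h9 : (l - 1 : ℝ) * (2 * S.card) ≤ 2 * l * S.card := by nlinarith
  have h10 : (l - 1 : ℝ) * ∑ u ∈ UU Y S, (if NR l R u then ((u : ℝ))⁻¹ else 0) ≤
      rsum l (NR l R) Y S := by
    rw [Finset.mul_sum]
    unfold rsum
    refine Finset.sum_le_sum fun u hu => ?_
    have hup : u.Prime := (Finset.mem_filter.mp hu).2.1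
    have hu0 : (0 : ℝ) ≤ ((u : ℝ))⁻¹ := by positivity
    split_ifs with h
    · apply mul_le_mul_of_nonneg_right _ hu0
      have h3 := le_nroots (show 2 ≤ l by omega) hup h.1
      have h4 : ((l - 1 : ℕ) : ℝ) ≤ nroots l u := by exact_mod_cast h3
      rw [Nat.cast_sub (by omega)] at h4
      push_cast at h4
      exact h4
    · simp
  linarith

/-- the main asymptotic sieve bound for an arbitrary predicate `F` -/
theorem masterF {l : ℕ} (hl : 1 ≤ l) (k : ℕ) (E : ℕ → Prop) {κ : ℝ}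
    (hκ0 : 0 ≤ κ) (hκ1 : κ ≤ 1) (hE : ∃ C : ℝ, ∀ Y : ℕ, 3 ≤ Y → κ * Real.log (Real.log Y) - C ≤ esum E Y)
    {Θ : ℝ} (hΘ : 0 ≤ Θ) {δ : ℝ} (hδ : 0 < δ) :
    ∃ x₀ : ℕ, ∀ x : ℕ, x₀ ≤ x → ∀ S : Finset ℕ, S.card ≤ k → (∀ p ∈ S, p.Prime) →
      ∀ (F : ℕ → Prop) (θ : ℝ), θ ≤ Θ → θ * LL x ≤ rsum l F (YY l x) S →
      ∀ M : ℕ, 0 < M → (∀ u, u.Prime → u ∉ S → ¬ u ∣ M) → (M : ℝ) ≤ Real.exp (3 / 4 * Real.log x) →
      (((range x).filter (fun n => M ∣ n ∧ ∀ u ∈ UU (YY l x) S, ¬ Rem l E F u n)).card : ℝ) ≤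
        (x / M) * Real.exp (-((κ + θ - δ) * LL x)) := by
  obtain ⟨C1, hC1⟩ := hE
  obtain ⟨C3, hC30, hC3⟩ := msum_one_le
  have hl0 : (0 : ℝ) < l := by exact_mod_cast (show 0 < l by omega)
  set K : ℝ := |C1| + (k + 1) + Real.log 4 with hK
  have ev1 := YY_facts l k (show 0 < δ / 8 by positivity)
  have ev2 : ∀ᶠ x : ℕ in atTop, Real.log (1 * Real.log x + 0) + Real.log 6 ≤
      (1 / (8 * (Θ + 1))) * Real.log x :=
    tendsto_log_nat.eventually (eventually_log_le 1 0 _ _ one_pos (by positivity))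
  obtain ⟨x₀, hx₀⟩ := eventually_atTop.mp (ev1.and (ev2.and
    ((tendsto_LL.eventually_ge_atTop (8 * K / δ)).and ((tendsto_LL.eventually_ge_atTop (C3 + 1)).and
      (eventually_ge_atTop 3)))))
  refine ⟨x₀, fun x hx S hSk hS F θ hθ hFθ M hM hMS hMx => ?_⟩
  obtain ⟨⟨hY3, hYlow, hYup, hYx, _, hYr⟩, h2, h3, h4, hx3⟩ := hx₀ x hx
  set Y := YY l x with hY
  set L := LL x with hL
  set t := Real.log x with ht
  have ht1 : 1 < t := one_lt_log hx3
  have hLt : Real.log t = L := rfl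
  have hL1 : 1 ≤ L := by linarith
  set G := GG l E F Y S with hG
  -- lower bound for G
  have hlow3 : (κ + θ - δ) * L + Real.log 4 ≤ G := by
    have h5 := GG_lowerF (Y := Y) hl E F hS
    have h6 := hC1 Y hY3
    have h7 : κ * ((1 - δ / 8) * L) ≤ κ * Real.log (Real.log Y) :=
      mul_le_mul_of_nonneg_left hYlow hκ0
    have h8 : κ * ((1 - δ / 8) * L) = κ * L - κ * (δ / 8 * L) := by ring
    have h9 : κ * (δ / 8 * L) ≤ 1 * (δ / 8 * L) := mul_le_mul_of_nonneg_right hκ1 (by positivity)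
    have h11 := le_abs_self C1
    have h12 : (S.card : ℝ) ≤ k := by exact_mod_cast hSk
    have hKL : K ≤ δ / 8 * L := by
      rw [div_le_iff₀ hδ] at h3
      linarith
    have h13 : (κ + θ - δ) * L = κ * L + θ * L - δ * L := by ring
    have h14 : 0 ≤ δ * L := by positivity
    rw [h13]
    linarith
  -- upper bound for G
  have hup : G ≤ 2 * (l + 1) * L := by
    have h5 := GG_upper (Y := Y) hl E F S
    have h6 := hC3 Y hY3
    have h7 : (l + 1 : ℝ) * msum 1 0 Y ≤ (l + 1) * (2 * L) := by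
      apply mul_le_mul_of_nonneg_left _ (by positivity)
      linarith
    linarith
  -- the sieve
  have hsv := sieve_spec (l := l) (x := x) (r := rr l x) hM (show 1 ≤ Y by omega) E F hMS
    (by unfold rr; exact even_two_mul _)
  refine hsv.trans ?_
  rw [← hG]
  have hM0 : (0 : ℝ) < M := by exact_mod_cast hM
  have hx0 : (0 : ℝ) < x := by
    have : 0 < x := by omega
    exact_mod_cast this
  have hxexp : (x : ℝ) = Real.exp t := (Real.exp_log hx0).symm
  -- the tail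
  have htail : Real.exp (8 * G) / 8 ^ (rr l x + 1) ≤ Real.exp (-G) := by
    rw [div_le_iff₀ (by positivity), ← Real.log_le_log_iff (by positivity) (by positivity),
      Real.log_exp, Real.log_mul (by positivity) (by positivity), Real.log_exp, Real.log_pow]
    have h5 : 2 * (8 * (l + 1) * L) ≤ (rr l x : ℝ) := by
      unfold rr
      push_cast
      have := Nat.le_ceil (8 * ((l : ℝ) + 1) * LL x)
      linarith
    have h6 : (2 : ℝ) ≤ Real.log 8 := by
      have : Real.log 8 = 3 * Real.log 2 := by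
        rw [show (8 : ℝ) = 2 ^ 3 by norm_num, Real.log_pow]; norm_num
      have := Real.log_two_gt_d9
      linarith
    push_cast
    have h7 : 0 ≤ (l + 1 : ℝ) * L := by positivity
    have h8 : (2 * (8 * (l + 1) * L) + 1) * 2 ≤ ((rr l x : ℝ) + 1) * Real.log 8 := by
      apply mul_le_mul (by linarith) h6 (by norm_num) (by positivity)
    nlinarith
  have hmain : Real.exp (-G) + Real.exp (8 * G) / 8 ^ (rr l x + 1) ≤
      (1 / 2) * Real.exp (-((κ + θ - δ) * L)) := by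
    have h5 : Real.exp (-G) ≤ Real.exp (-((κ + θ - δ) * L)) * (1 / 4) := by
      have h6 : (1 / 4 : ℝ) = Real.exp (-Real.log 4) := by
        rw [Real.exp_neg, Real.exp_log (by norm_num)]; norm_num
      rw [h6, ← Real.exp_add]
      apply Real.exp_le_exp.mpr
      have aux2 : ∀ a b c : ℝ, a + b ≤ c → -c ≤ -a + -b := by
        intro a b c h; linarith
      exact aux2 _ _ _ hlow3
    have aux : ∀ a b c : ℝ, a ≤ c * (1 / 4) → b ≤ a → a + b ≤ (1 / 2) * c := by
      intro a b c h1 h2; linarith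
    exact aux _ _ _ h5 htail
  -- the error term
  have herr : 3 * ((Y : ℝ) ^ 3) ^ rr l x ≤
      (x / M) * ((1 / 2) * Real.exp (-((κ + θ - δ) * L))) := by
    have h5 : Real.exp (t / 4) ≤ x / M := by
      rw [le_div_iff₀ hM0]
      calc Real.exp (t / 4) * M ≤ Real.exp (t / 4) * Real.exp (3 / 4 * t) :=
            mul_le_mul_of_nonneg_left hMx (Real.exp_pos _).le
        _ = x := by rw [← Real.exp_add, hxexp]; ring_nf
    have h6 : Real.exp (-((Θ + 1) * L)) ≤ Real.exp (-((κ + θ - δ) * L)) := by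
      apply Real.exp_le_exp.mpr
      apply neg_le_neg
      exact mul_le_mul_of_nonneg_right (by linarith only [hκ1, hθ, hδ]) (by linarith only [hL1])
    have h7 : 6 * Real.exp (t / 8) ≤ Real.exp (t / 4) * Real.exp (-((Θ + 1) * L)) := by
      have h8 : (6 : ℝ) = Real.exp (Real.log 6) := (Real.exp_log (by norm_num)).symm
      rw [h8, ← Real.exp_add, ← Real.exp_add]
      apply Real.exp_le_exp.mpr
      rw [add_zero, one_mul, hLt] at h2
      have h9 : 0 ≤ Real.log 6 := Real.log_nonneg (by norm_num)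
      have h10 : (Θ + 1) * (L + Real.log 6) ≤ (Θ + 1) * (1 / (8 * (Θ + 1)) * t) :=
        mul_le_mul_of_nonneg_left h2 (by linarith)
      have h11 : (Θ + 1) * (1 / (8 * (Θ + 1)) * t) = t / 8 := by field_simp
      have h12 : Real.log 6 ≤ (Θ + 1) * Real.log 6 := by nlinarith
      linarith
    calc 3 * ((Y : ℝ) ^ 3) ^ rr l x ≤ 3 * Real.exp (t / 8) := by
          apply mul_le_mul_of_nonneg_left hYr (by norm_num)
      _ ≤ (1 / 2) * (Real.exp (t / 4) * Real.exp (-((Θ + 1) * L))) := by linarith only [h7]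
      _ ≤ (1 / 2) * ((x / M) * Real.exp (-((κ + θ - δ) * L))) := by
          apply mul_le_mul_of_nonneg_left _ (by norm_num)
          exact mul_le_mul h5 h6 (Real.exp_pos _).le (by positivity)
      _ = _ := by ring
  calc _ ≤ (x / M) * ((1 / 2) * Real.exp (-((κ + θ - δ) * L))) +
      (x / M) * ((1 / 2) * Real.exp (-((κ + θ - δ) * L))) := by
        apply add_le_add _ herr
        exact mul_le_mul_of_nonneg_left hmain (by positivity)
    _ = _ := by ring

/-- the dimension `(l - 1)/φ(l)` -/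
noncomputable def dim (l : ℕ) : ℝ := (l - 1 : ℝ) / l.totient

/-- the main asymptotic sieve bound for the nonresidue condition -/
theorem master {l : ℕ} (hl3 : 3 ≤ l) (k : ℕ) (E : ℕ → Prop) {κ : ℝ}
    (hκ0 : 0 ≤ κ) (hκ1 : κ ≤ 1) (hE : ∃ C : ℝ, ∀ Y : ℕ, 3 ≤ Y → κ * Real.log (Real.log Y) - C ≤ esum E Y)
    {δ : ℝ} (hδ : 0 < δ) :
    ∃ x₀ : ℕ, ∀ x : ℕ, x₀ ≤ x → ∀ S R : Finset ℕ, R ⊆ S → S.card ≤ k → (∀ p ∈ S, p.Prime) →
      (∀ V ⊆ R, V.Nonempty → T l (YY l x) (∏ p ∈ V, p) ≤ (δ / (8 * l)) * LL x) →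
      ∀ M : ℕ, 0 < M → (∀ u, u.Prime → u ∉ S → ¬ u ∣ M) → (M : ℝ) ≤ Real.exp (3 / 4 * Real.log x) →
      (((range x).filter (fun n => M ∣ n ∧ ∀ u ∈ UU (YY l x) S, ¬ Rem l E (NR l R) u n)).card : ℝ) ≤
        (x / M) * Real.exp (-((κ + dim l * (1 - 1 / 2 ^ R.card) - δ) * LL x)) := by
  obtain ⟨C2, hC2⟩ := mertens_one_mod (show 2 ≤ l by omega)
  have hl0 : (0 : ℝ) < l := by exact_mod_cast (show 0 < l by omega)
  have hl1 : (1 : ℝ) ≤ l := by exact_mod_cast (show 1 ≤ l by omega)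
  have hφ0 : (0 : ℝ) < l.totient := by
    exact_mod_cast Nat.totient_pos.mpr (show 0 < l by omega)
  have hφ1 : (1 : ℝ) ≤ l.totient := by
    exact_mod_cast Nat.totient_pos.mpr (show 0 < l by omega)
  have hl1' : (0 : ℝ) ≤ l - 1 := by linarith
  have hD0 : 0 ≤ dim l := by unfold dim; positivity
  have hDl : dim l ≤ l := by
    unfold dim
    rw [div_le_iff₀ hφ0]
    nlinarith
  obtain ⟨x1, hx1⟩ := masterF (show 1 ≤ l by omega) k E hκ0 hκ1 hE (Θ := l) hl0.le
    (show 0 < δ / 2 by positivity)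
  set K : ℝ := l * |C2| + 2 * l * k with hK
  obtain ⟨x2, hx2⟩ := eventually_atTop.mp ((YY_facts l k (show 0 < δ / (8 * l) by positivity)).and
    ((tendsto_LL.eventually_ge_atTop (8 * K / δ)).and (tendsto_LL.eventually_ge_atTop 1)))
  refine ⟨max x1 x2, fun x hx S R hRS hSk hS hT M hM hMS hMx => ?_⟩
  obtain ⟨⟨hY3, hYlow, hYup, hYx, _, hYr⟩, h3, hL1⟩ := hx2 x (le_trans (le_max_right _ _) hx)
  set Y := YY l x with hY
  set L := LL x with hL
  set j := R.card with hj
  have hq0 : (0 : ℝ) ≤ 1 - 1 / 2 ^ j := by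
    rw [sub_nonneg, div_le_one (by positivity)]
    exact one_le_pow₀ (by norm_num)
  have hq1 : (1 : ℝ) - 1 / 2 ^ j ≤ 1 := by
    have : (0 : ℝ) ≤ 1 / 2 ^ j := by positivity
    linarith
  set θ : ℝ := dim l * (1 - 1 / 2 ^ j) - δ / 2 with hθ
  have hθl : θ ≤ l := by
    have : dim l * (1 - 1 / 2 ^ j) ≤ dim l * 1 := mul_le_mul_of_nonneg_left hq1 hD0
    rw [hθ]
    linarith
  have hη0 : 0 ≤ (δ / (8 * l)) * L := by positivity
  have hrs : θ * L ≤ rsum l (NR l R) Y S := by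
    have h5 := rsum_NR_lower (Y := Y) hl3 hRS hS hη0 hT
    have h7 := hC2 Y hY3
    have h8 : (l - 1 : ℝ) * (1 - 1 / 2 ^ j) * ((l.totient : ℝ)⁻¹ * Real.log (Real.log Y) - C2) ≤
        (l - 1) * (1 - 1 / 2 ^ j) * msum l 1 Y :=
      mul_le_mul_of_nonneg_left h7 (by positivity)
    have h9 : (l - 1 : ℝ) * (1 - 1 / 2 ^ j) * ((l.totient : ℝ)⁻¹ * Real.log (Real.log Y) - C2) =
        dim l * (1 - 1 / 2 ^ j) * Real.log (Real.log Y) - (l - 1) * (1 - 1 / 2 ^ j) * C2 := by
      unfold dim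
      field_simp
    rw [h9] at h8
    have h10 : (l - 1 : ℝ) * (1 - 1 / 2 ^ j) * C2 ≤ l * |C2| := by
      calc (l - 1 : ℝ) * (1 - 1 / 2 ^ j) * C2 ≤ (l - 1) * (1 - 1 / 2 ^ j) * |C2| :=
            mul_le_mul_of_nonneg_left (le_abs_self _) (by positivity)
        _ ≤ l * 1 * |C2| := by
            apply mul_le_mul_of_nonneg_right _ (abs_nonneg _)
            apply mul_le_mul _ hq1 hq0 hl0.le
            linarith
        _ = l * |C2| := by ring
    have h12 : (S.card : ℝ) ≤ k := by exact_mod_cast hSk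
    have h13 : 2 * (l : ℝ) * S.card ≤ 2 * l * k := by
      apply mul_le_mul_of_nonneg_left h12 (by positivity)
    have h14 : dim l * (1 - 1 / 2 ^ j) * ((1 - δ / (8 * l)) * L) ≤
        dim l * (1 - 1 / 2 ^ j) * Real.log (Real.log Y) :=
      mul_le_mul_of_nonneg_left hYlow (by positivity)
    have h15 : dim l * (1 - 1 / 2 ^ j) * ((1 - δ / (8 * l)) * L) =
        dim l * (1 - 1 / 2 ^ j) * L - dim l * (1 - 1 / 2 ^ j) * (δ / (8 * l) * L) := by ring
    have h16 : dim l * (1 - 1 / 2 ^ j) * (δ / (8 * l) * L) ≤ l * (δ / (8 * l) * L) := by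
      apply mul_le_mul_of_nonneg_right _ hη0
      calc dim l * (1 - 1 / 2 ^ j) ≤ dim l * 1 := mul_le_mul_of_nonneg_left hq1 hD0
        _ ≤ l := by linarith
    have h17 : (l : ℝ) * (δ / (8 * l) * L) = δ / 8 * L := by field_simp
    have hKL : K ≤ δ / 8 * L := by
      rw [div_le_iff₀ hδ] at h3
      linarith
    have h18 : θ * L = dim l * (1 - 1 / 2 ^ j) * L - δ / 2 * L := by rw [hθ]; ring
    have h19 : 0 ≤ δ * L := by positivity
    rw [h18]
    rw [h17] at h16 h5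
    linarith
  have h := hx1 x (le_trans (le_max_left _ _) hx) S hSk hS (NR l R) θ hθl hrs M hM hMS hMx
  have e : κ + θ - δ / 2 = κ + dim l * (1 - 1 / 2 ^ j) - δ := by rw [hθ]; ring
  rw [e] at h
  exact h

end Pool.Agent.Lib.MP_79499b_co.PC
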