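import Pool.Agent.Lib.MP_79499b_co.Q38Excl

/-!
# The order test for arbitrary finite groups

If `m` is odd, some finite group carries a difference set with the Singer parameters for `(n, m)`,
`q` is a prime dividing `n` to an odd power and `w` is a prime divisor of the order
`v = (n^m - 1)/(n - 1)`, then the order of `q` modulo `w` is odd.  Consequently, also the order
of `n / q` modulo `w` is odd.
-/

set_option autoImplicit false

namespace Pool.Agent.Lib.MP_79499b_co.PC

open Finset Pool.Agent.Lib.MP_79499b_co.Q38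

/-- an element of even order modulo an odd prime has a power equal to `-1` -/
lemma exists_pow_eq_neg_one {w : ℕ} [Fact w.Prime] {x : ZMod w} (hx : x ≠ 0)
    (h : Even (orderOf x)) : ∃ j : ℕ, 0 < j ∧ x ^ j = -1 := by
  have hfin : 0 < orderOf x := by
    rw [orderOf_pos_iff]
    have : IsOfFinOrder (Units.mk0 x hx) := isOfFinOrder_of_finite _
    rw [← Units.val_mk0 hx]
    exact (Units.isOfFinOrder_val).mpr this
  obtain ⟨r, hr⟩ := h
  have hr0 : 0 < r := by omega
  refine ⟨r, hr0, ?_⟩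
  have h1 : x ^ r * x ^ r = 1 := by
    rw [← pow_add, ← hr, pow_orderOf_eq_one]
  rcases mul_self_eq_one_iff.mp h1 with h2 | h2
  · exfalso
    have h3 := orderOf_le_of_pow_eq_one hr0 h2
    omega
  · exact h2

section

variable {n m : ℕ} {G : Type} [Group G] [Fintype G] [DecidableEq G]

/-- **Order test** for arbitrary finite groups: a prime dividing `n` to an odd power has odd order
modulo every prime divisor of the group order. -/
theorem orderOf_odd (hn : 2 ≤ n) (hm : 3 ≤ m) (hodd : Odd m) (D : Finset G)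
    (hG : Fintype.card G * (n - 1) = n ^ m - 1)
    (hD : D.card * (n - 1) = n ^ (m - 1) - 1)
    (hlam : ∀ g : G, g ≠ 1 →
      ((D ×ˢ D).filter (fun p : G × G => p.1 * p.2⁻¹ = g)).card * (n - 1) = n ^ (m - 2) - 1)
    {p : ℕ} (hp : p.Prime) (hpodd : Odd (n.factorization p)) {w : ℕ} (hw : w.Prime)
    (hwn : w ∣ Phi m n) : Odd (orderOf (p : ZMod w)) := by
  have : Fact w.Prime := ⟨hw⟩
  by_contra heven
  rw [Nat.not_odd_iff_even] at heven
  have hn1 : 0 < n - 1 := by omega
  have hgeom : ∀ t : ℕ, (∑ i ∈ Finset.range t, n ^ i) * (n - 1) = n ^ t - 1 := by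
    intro t
    rw [Nat.geomSum_eq hn, Nat.div_mul_cancel]
    exact Nat.sub_one_dvd_pow_sub_one n t
  have hv : Fintype.card G = Phi m n := by
    apply Nat.eq_of_mul_eq_mul_right hn1
    rw [hG]
    exact (hgeom m).symm
  -- `p` is a unit modulo `w`
  have hpn : p ∣ n := by
    apply Nat.dvd_of_factorization_pos
    intro h
    rw [h] at hpodd
    exact absurd hpodd (by decide)
  have hwp : ¬ w ∣ p := by
    intro h
    have h1 : w ∣ n := h.trans hpn
    have h2 : w ∣ n ^ m - 1 := by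
      rw [← hG, hv]
      exact hwn.mul_right _
    have h3 : w ∣ n ^ m := dvd_pow h1 (by omega)
    have h4 : 1 ≤ n ^ m := Nat.one_le_pow _ _ (by omega)
    have h5 : w ∣ 1 := by
      have := Nat.dvd_sub h3 h2
      rwa [Nat.sub_sub_self h4] at this
    exact hw.one_lt.ne' (Nat.dvd_one.mp h5)
  have hp0 : (p : ZMod w) ≠ 0 := by
    rw [Ne, ZMod.natCast_eq_zero_iff]
    exact hwp
  obtain ⟨j, hj, hpj⟩ := exists_pow_eq_neg_one hp0 heven
  have hwj : w ∣ p ^ j + 1 := by
    rw [← ZMod.natCast_eq_zero_iff]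
    push_cast
    rw [hpj]
    ring
  have hk : D.card = ∑ i ∈ Finset.range (m - 1), n ^ i := by
    apply Nat.eq_of_mul_eq_mul_right hn1
    rw [hD, hgeom]
  set lam := ∑ i ∈ Finset.range (m - 2), n ^ i with hlamdef
  have hlam' : ∀ g : G, g ≠ 1 →
      ((D ×ˢ D).filter (fun p : G × G => p.1 * p.2⁻¹ = g)).card = lam := by
    intro g hg
    apply Nat.eq_of_mul_eq_mul_right hn1
    rw [hlam g hg, hgeom]
  have hkl : D.card = lam + n ^ (m - 2) := by
    rw [hk, hlamdef, ← Finset.sum_range_succ]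
    congr 2
    omega
  -- the exponent of `p` in `n ^ (m - 2)`
  have hodd2 : Odd (m - 2) := by
    obtain ⟨c, hc⟩ := hodd
    exact ⟨c - 1, by omega⟩
  have hoddE : Odd ((n ^ (m - 2)).factorization p) := by
    rw [Nat.factorization_pow, Finsupp.smul_apply, smul_eq_mul]
    exact hodd2.mul hpodd
  obtain ⟨c, hc⟩ := hoddE
  have hN0 : n ^ (m - 2) ≠ 0 := by positivity
  refine Lander29.not_selfconj D lam hlam' ?_ w hw ?_ p hp hj hwj c
    (((n ^ (m - 2)) / p ^ (2 * c + 1) : ℕ) : ℤ) ?_ ?_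
  · rw [hv]; exact Phi_odd hodd
  · rw [hv]; exact hwn
  · intro h
    have h1 : p ∣ (n ^ (m - 2)) / p ^ (2 * c + 1) := by exact_mod_cast h
    rw [← hc] at h1
    exact (Nat.not_dvd_ordCompl hp hN0) h1
  · have h2 : p ^ (2 * c + 1) * ((n ^ (m - 2)) / p ^ (2 * c + 1)) = n ^ (m - 2) := by
      apply Nat.mul_div_cancel'
      rw [← hc]
      exact Nat.ordProj_dvd _ _
    have h3 : ((p : ℤ) ^ (2 * c + 1)) * (((n ^ (m - 2)) / p ^ (2 * c + 1) : ℕ) : ℤ) =
        ((n ^ (m - 2) : ℕ) : ℤ) := by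
      exact_mod_cast congrArg (fun z : ℕ => (z : ℤ)) h2
    rw [h3, hkl]
    push_cast
    ring

/-- The cofactor: if `n = t * q` with a prime `q` dividing `n` to an odd power, then the order of
`t` modulo every prime divisor of the group order is odd. -/
theorem orderOf_cofactor_odd (hn : 2 ≤ n) (hm : 3 ≤ m) (hodd : Odd m) (D : Finset G)
    (hG : Fintype.card G * (n - 1) = n ^ m - 1)
    (hD : D.card * (n - 1) = n ^ (m - 1) - 1)
    (hlam : ∀ g : G, g ≠ 1 →
      ((D ×ˢ D).filter (fun p : G × G => p.1 * p.2⁻¹ = g)).card * (n - 1) = n ^ (m - 2) - 1)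
    {t q : ℕ} (hq : q.Prime) (hqodd : Odd (n.factorization q)) (htq : n = t * q)
    {w : ℕ} (hw : w.Prime) (hwn : w ∣ Phi m n) : Odd (orderOf (t : ZMod w)) := by
  have : Fact w.Prime := ⟨hw⟩
  have h1 := orderOf_odd hn hm hodd D hG hD hlam hq hqodd hw hwn
  have hnm : w ∣ n ^ m - 1 := by
    have h2 : Phi m n * (n - 1) = n ^ m - 1 := by
      unfold Phi
      rw [Nat.geomSum_eq hn, Nat.div_mul_cancel]
      exact Nat.sub_one_dvd_pow_sub_one n m
    rw [← h2]
    exact hwn.mul_right _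
  have hnm1 : (n : ZMod w) ^ m = 1 := by
    have h4 : 1 ≤ n ^ m := Nat.one_le_pow _ _ (by omega)
    have h5 : ((n ^ m - 1 : ℕ) : ZMod w) = 0 := (ZMod.natCast_eq_zero_iff _ _).mpr hnm
    rw [Nat.cast_sub h4] at h5
    push_cast at h5
    exact sub_eq_zero.mp h5
  -- `t ^ (m * orderOf q) = 1`
  have h6 : (t : ZMod w) ^ (m * orderOf (q : ZMod w)) = 1 := by
    have h7 : (n : ZMod w) ^ (m * orderOf (q : ZMod w)) = 1 := by
      rw [pow_mul, hnm1, one_pow]
    have h8 : (q : ZMod w) ^ (m * orderOf (q : ZMod w)) = 1 := by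
      rw [mul_comm, pow_mul, pow_orderOf_eq_one, one_pow]
    rw [htq, Nat.cast_mul, mul_pow, h8, mul_one] at h7
    exact h7
  exact Odd.of_dvd_nat (hodd.mul h1) (orderOf_dvd_of_pow_eq_one h6)

end

end Pool.Agent.Lib.MP_79499b_co.PC
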